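import Pool.Agent.Lib.MP_e486a8_co.Sun

/-!
The empirical distribution of the blocks of the top-half / bottom-half itinerary of every card has
entropy at least one half of the maximum, on every long interval of times.
-/

namespace Pool.Agent.Results.MP_e486a8_co.BlockEntropy

open Pool.Agent.Lib.MP_e486a8_co

theorem result (deck : ℕ → ℕ → ℕ) (h0 : ∀ i, deck 0 i = i + 1)
    (hs : ∀ m i, deck (m + 1) i =
      if i < 2 * (m + 1) then
        (if i % 2 = 0 then deck m (m + 1 + i / 2) else deck m (i / 2))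
      else deck m i)
    (c : ℕ) (hc : 1 ≤ c) (L : ℕ) (δ ε : ℝ) (hδ : 0 < δ) (hε : 0 < ε) :
    ∃ B₀ : ℕ, ∀ A B : ℕ, B₀ ≤ B → δ * B ≤ (B : ℝ) - A →
      (L : ℝ) / 2 * Real.log 2 - ε ≤ ∑ w : Fin L → Bool, Real.negMulLog
        (({m : ℕ | A ≤ m ∧ m < B ∧
          ∀ k : Fin L, (w k = true ↔ ∃ i < m + k + 1, deck (m + k) i = c)}.ncard : ℝ) /
          ((B : ℝ) - A)) := by
  obtain ⟨pos, e00, e0⟩ : ∃ pos : ℕ → ℕ, pos 0 = c - 1 ∧ ∀ m : ℕ, pos (m + 1) =
      if pos m < m + 1 then 2 * pos m + 1 else
      if pos m < 2 * (m + 1) then 2 * (pos m - (m + 1)) else pos m :=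
    ⟨fun m => Nat.rec (c - 1) (fun m x => if x < m + 1 then 2 * x + 1 else
      if x < 2 * (m + 1) then 2 * (x - (m + 1)) else x) m, rfl, fun _ => rfl⟩
  have e1 : ∀ m i, deck m i = c ↔ i = pos m := by
    intro m
    induction m with
    | zero =>
      intro i
      rw [h0]
      omega
    | succ m ih =>
      intro i
      rw [hs, e0]
      split_ifs <;> rw [ih] <;> omega
  have e2 : ∀ m, pos m < 2 * m ∨ pos m < c := by
    intro m
    induction m with
    | zero => exact Or.inr (by omega)
    | succ m ih => rw [e0]; split_ifs <;> omega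
  have O : Orb c (fun m => pos m + 1) fun m => decide (pos m < m + 1) := by
    refine ⟨fun m hm => by have := e2 m; omega, fun m hm => ?_⟩
    have := e2 m
    rw [e0]
    by_cases h : pos m < m + 1
    · simp [h, dig]; ring
    · rw [if_neg h, if_pos (by omega)]
      simp only [h, dig, decide_false, Bool.false_eq_true, if_false, one_mul]
      omega
  obtain ⟨B₀, h⟩ := blockEntropy O L hδ hε
  refine ⟨B₀, fun A B h1 h2 => (h A B h1 h2).trans (le_of_eq ?_)⟩
  refine Finset.sum_congr rfl fun w _ => ?_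
  rw [← Set.ncard_coe_finset]
  congr 4
  ext m
  simp only [Finset.coe_filter, Finset.mem_Ico, Set.mem_ofPred_eq, and_assoc, funext_iff, blk, e1,
    exists_eq_right]
  refine and_congr_right fun _ => and_congr_right fun _ => forall_congr' fun k => ?_
  cases w k <;> simp

end Pool.Agent.Results.MP_e486a8_co.BlockEntropy
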