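import Pool.Agent.Lib.MP_e486a8_co.Win

/-!
Many different cards come to the top between the shuffles `N` and `3 * N`.
-/

namespace Pool.Agent.Results.MP_e486a8_co.DistinctTops

open Pool.Agent.Lib.MP_e486a8_co

theorem result (deck : ℕ → ℕ → ℕ) (h0 : ∀ i, deck 0 i = i + 1)
    (hs : ∀ m i, deck (m + 1) i =
      if i < 2 * (m + 1) then
        (if i % 2 = 0 then deck m (m + 1 + i / 2) else deck m (i / 2))
      else deck m i)
    (ε : ℝ) (hε : 0 < ε) :
    ∃ N₀ : ℕ, ∀ N : ℕ, N₀ ≤ N →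
      (1 / 2 - ε) * Real.logb 2 N ^ 2 / Real.logb 2 (Real.logb 2 N) ≤
        ({c : ℕ | ∃ m, N ≤ m ∧ m ≤ 3 * N ∧ deck m 0 = c}.ncard : ℝ) := by
  have one : ∀ m i, 1 ≤ deck m i := by
    intro m
    induction m with
    | zero => exact fun i => by rw [h0]; omega
    | succ m ih => exact fun i => by rw [hs]; split_ifs <;> exact ih _
  have key : ∀ j W m M : ℕ, (2 * W + 2 * j + 5) ^ (W / (j + 1) + 1) ≤ 2 ^ j → 2 ^ j ≤ m →
      m < M → M ≤ 2 ^ j + W → deck m 0 ≠ deck M 0 := by
    intro j W m M hW h1 h2 h3 e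
    obtain ⟨c, hc⟩ : ∃ c, deck M 0 = c := ⟨_, rfl⟩
    have c1 := hc ▸ one M 0
    obtain ⟨pos, e00, e0⟩ : ∃ pos : ℕ → ℕ, pos 0 = c - 1 ∧ ∀ m : ℕ, pos (m + 1) =
        if pos m < m + 1 then 2 * pos m + 1 else
        if pos m < 2 * (m + 1) then 2 * (pos m - (m + 1)) else pos m :=
      ⟨fun m => Nat.rec (c - 1) (fun m x => if x < m + 1 then 2 * x + 1 else
        if x < 2 * (m + 1) then 2 * (x - (m + 1)) else x) m, rfl, fun _ => rfl⟩
    have e1 : ∀ m i, deck m i = c ↔ i = pos m := by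
      intro m
      induction m with
      | zero =>
        intro i
        rw [h0]
        omega
      | succ m ih =>
        intro i
        rw [hs, e0]
        split_ifs <;> rw [ih] <;> omega
    have p1 := (e1 m 0).1 (e.trans hc)
    have p2 := (e1 M 0).1 hc
    have e2 : ∀ n, m ≤ n → pos n ≤ 2 * n := by
      intro n hn
      induction n, hn using Nat.le_induction with
      | base => omega
      | succ n _ ih => rw [e0]; split_ifs <;> omega
    have G : GO m fun n => pos n + 1 := by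
      refine ⟨fun n hn => by have := e2 n hn; omega, fun n hn => ?_⟩
      have := e2 n hn
      rw [e0]
      split_ifs <;> omega
    exact G.window (by omega) h1 hW h2 h3 (by omega)
  obtain ⟨N₀, h⟩ := Filter.eventually_atTop.1 (size hε)
  refine ⟨N₀, fun N hN => ?_⟩
  obtain ⟨j, W, h1, h2, h3, h4⟩ := h N hN
  refine h4.trans (Nat.cast_le.2 ?_)
  have inj : Set.InjOn (fun m => deck m 0) (Finset.Icc (2 ^ j) (2 ^ j + W)) := by
    intro m hm M hM e
    simp only [Finset.coe_Icc, Set.mem_Icc] at hm hM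
    rcases lt_trichotomy m M with l | l | l
    · exact absurd e (key j W m M h3 hm.1 l hM.2)
    · exact l
    · exact absurd e.symm (key j W M m h3 hM.1 l hm.2)
  have fin : {c : ℕ | ∃ m, N ≤ m ∧ m ≤ 3 * N ∧ deck m 0 = c}.Finite :=
    ((Set.finite_Icc N (3 * N)).image fun m => deck m 0).subset
      fun c ⟨m, a, b, e⟩ => ⟨m, ⟨a, b⟩, e⟩
  calc W + 1 = ((Finset.Icc (2 ^ j) (2 ^ j + W)).image fun m => deck m 0).card := by
        rw [Finset.card_image_of_injOn inj, Nat.card_Icc]; omega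
    _ ≤ _ := by
        rw [← Set.ncard_coe_finset]
        refine Set.ncard_le_ncard (fun c hc => ?_) fin
        obtain ⟨m, hm, e⟩ := Finset.mem_image.1 hc
        rw [Finset.mem_Icc] at hm
        exact ⟨m, by omega, by omega, e⟩

end Pool.Agent.Results.MP_e486a8_co.DistinctTops
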