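import Pool.Agent.Lib.MP_e486a8_co.Mirror

/-!
Exactly `N + 2` of the cards `1, ..., 2 * N + 3` have been at the first or the third place
in one of the decks `0, ..., N`.
-/

namespace Pool.Agent.Results.MP_e486a8_co.HalfTheCards

open Pool.Agent.Lib.MP_e486a8_co.Mirror

theorem result (deck : ℕ → ℕ → ℕ) (h0 : ∀ i, deck 0 i = i + 1)
    (hs : ∀ m i, deck (m + 1) i =
      if i < 2 * (m + 1) then
        (if i % 2 = 0 then deck m (m + 1 + i / 2) else deck m (i / 2))
      else deck m i)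
    (N : ℕ) :
    {c : ℕ | 1 ≤ c ∧ c ≤ 2 * N + 3 ∧ ∃ m, m ≤ N ∧ (deck m 0 = c ∨ deck m 2 = c)}.ncard = N + 2 := by
  have S : Shuffle deck := ⟨h0, hs⟩
  rw [← (S.count N).2]
  congr 1
  ext c
  constructor
  · exact fun h => h.2.2
  · intro h
    refine ⟨?_, S.seen_le N c h, h⟩
    obtain ⟨m, -, h | h⟩ := h <;> exact h ▸ S.one _ _

end Pool.Agent.Results.MP_e486a8_co.HalfTheCards
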