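import Pool.Agent.Lib.MP_e486a8_co.Mirror2

/-!
The cards that are never at the first or the third place are as many as the cards that are
there at least once but only finitely often.
-/

namespace Pool.Agent.Results.MP_e486a8_co.NeverEqFinite

open Pool.Agent.Lib.MP_e486a8_co.Mirror

theorem result (deck : ℕ → ℕ → ℕ) (h0 : ∀ i, deck 0 i = i + 1)
    (hs : ∀ m i, deck (m + 1) i =
      if i < 2 * (m + 1) then
        (if i % 2 = 0 then deck m (m + 1 + i / 2) else deck m (i / 2))
      else deck m i) :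
    {c : ℕ | 1 ≤ c ∧ {m : ℕ | deck m 0 = c ∨ deck m 2 = c} = ∅}.encard =
      {c : ℕ | 1 ≤ c ∧ {m : ℕ | deck m 0 = c ∨ deck m 2 = c}.Nonempty ∧
        {m : ℕ | deck m 0 = c ∨ deck m 2 = c}.Finite}.encard :=
  (Shuffle.mk h0 hs).equi

end Pool.Agent.Results.MP_e486a8_co.NeverEqFinite
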